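import Pool.Agent.W275.UB.Stm

/-!
UB-LMG: local models for finite extensions of the field of rational functions.
-/

set_option autoImplicit false

namespace Pool.Agent.W135.UB

open MvPolynomial Pool.Agent.H936R2 Pool.Agent.H927R2.RD H294UB Pool.Agent.W275.UB

lemma dvd_aeval_sub {R ι : Type} [CommRing R] (π : R) (x y : ι → R) (h : ∀ i, π ∣ x i - y i)
    (c : MvPolynomial ι ℤ) : π ∣ aeval x c - aeval y c := by
  rw [← Ideal.mem_span_singleton, ← Ideal.Quotient.eq]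
  have h1 : ∀ z : ι → R, Ideal.Quotient.mk (Ideal.span {π}) (aeval z c)
      = aeval (fun i => Ideal.Quotient.mk (Ideal.span {π}) (z i)) c := by
    intro z
    have := MvPolynomial.map_aeval z (Ideal.Quotient.mk (Ideal.span {π})) c
    rw [this, MvPolynomial.aeval_def, MvPolynomial.coe_eval₂Hom]
    congr 1
  rw [h1, h1]
  congr 2
  funext i
  rw [Ideal.Quotient.eq, Ideal.mem_span_singleton]
  exact h i

lemma map_aeval' {R S ι : Type} [CommRing R] [CommRing S] (τ : R →+* S) (x : ι → R)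
    (c : MvPolynomial ι ℤ) : τ (aeval x c) = aeval (fun i => τ (x i)) c := by
  rw [MvPolynomial.map_aeval x τ c, MvPolynomial.aeval_def, MvPolynomial.coe_eval₂Hom]
  congr 1
  exact RingHom.ext_int _ _

/-- UB-LMG. -/
theorem main : S_theta → S_tensor → S_nfp → S_lmg := by
  intro hθ hT hN D p ι _ c₁ c₂ hp hv hc₂
  obtain ⟨v₀, hv₀⟩ := hv
  have : Fact p.Prime := ⟨hp⟩
  obtain ⟨θ, hθ1, hθ2⟩ := hθ p ι v₀
  -- `c₁(θ)` is a unit
  have hu1 : IsUnit (aeval θ c₁ : ℤ_[p]) := by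
    have h1 := dvd_aeval_sub (p : ℤ_[p]) θ (fun i => (v₀ i : ℤ_[p])) hθ1 c₁
    have h2 : (aeval (fun i => (v₀ i : ℤ_[p])) c₁ : ℤ_[p]) = 1 := by
      have h3 := map_aeval' (Int.castRingHom ℤ_[p]) v₀ c₁
      have h4 : (aeval v₀ c₁ : ℤ) = eval v₀ c₁ := by
        rw [MvPolynomial.aeval_def, MvPolynomial.eval₂_eq_eval_map]
        congr 1
        have : algebraMap ℤ ℤ = RingHom.id ℤ := rfl
        rw [this, MvPolynomial.map_id]
      rw [h4, hv₀] at h3
      simpa using h3.symm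
    rw [h2] at h1
    have h5 : ¬ (p : ℤ_[p]) ∣ aeval θ c₁ := by
      intro h6
      have h7 : (p : ℤ_[p]) ∣ 1 := by
        have := dvd_sub h6 h1
        rwa [sub_sub_cancel] at this
      exact (PadicInt.prime_p (p := p)).not_isUnit (isUnit_of_dvd_one h7)
    rw [← PadicInt.norm_lt_one_iff_dvd, not_lt] at h5
    rw [PadicInt.isUnit_iff]
    exact le_antisymm (PadicInt.norm_le_one _) h5
  -- `c₂(θ)`
  have hne2 : (aeval θ c₂ : ℤ_[p]) ≠ 0 := hθ2 c₂ hc₂
  have hspec := PadicInt.unitCoeff_spec hne2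
  set m := (aeval θ c₂ : ℤ_[p]).valuation with hm
  refine ⟨D * m, ?_⟩
  intro L _ _ _ hfin
  -- the embedding of the rational functions
  set g : MvPolynomial ι ℤ →+* ℚ_[p] :=
    (algebraMap ℤ_[p] ℚ_[p]).comp (aeval θ : MvPolynomial ι ℤ →ₐ[ℤ] ℤ_[p]).toRingHom with hg
  have hginj : Function.Injective g := by
    rw [injective_iff_map_eq_zero]
    intro c hc
    by_contra hc0
    have h1 : algebraMap ℤ_[p] ℚ_[p] (aeval θ c) = 0 := hc
    have h2 : (aeval θ c : ℤ_[p]) = 0 :=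
      (injective_iff_map_eq_zero (algebraMap ℤ_[p] ℚ_[p])).1
        (IsFractionRing.injective ℤ_[p] ℚ_[p]) _ h1
    exact hθ2 c hc0 h2
  obtain ⟨L', _, _, ψ, hfd, hfr, hψ⟩ := hT (EE ι) L ℚ_[p] (IsFractionRing.lift hginj)
  obtain ⟨A, _, _, _, _, _, π, hπ, hπp, hπD, hq, hz⟩ := hN p D L' (hfr.trans hfin)
  have hAinj : Function.Injective (algebraMap A L') := IsFractionRing.injective A L'
  choose τ₀ hτ₀ using hz
  let τ : ℤ_[p] →+* A :=
    { toFun := τ₀
      map_one' := hAinj (by rw [hτ₀]; simp)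
      map_mul' := fun x y => hAinj (by rw [hτ₀, map_mul, hτ₀, hτ₀]; simp)
      map_zero' := hAinj (by rw [hτ₀]; simp)
      map_add' := fun x y => hAinj (by rw [hτ₀, map_add, hτ₀, hτ₀]; simp) }
  have hτ : ∀ z, algebraMap A L' (τ z) = algebraMap ℚ_[p] L' (z : ℚ_[p]) := hτ₀
  refine ⟨L', inferInstance, ψ, A, inferInstance, inferInstance, inferInstance, inferInstance,
    inferInstance, π, fun i => τ (θ i), hπ, hπp, ?_, ?_, ?_, hq⟩
  · intro i
    rw [hτ]
    show _ = ψ (algebraMap (EE ι) L (algebraMap (MvPolynomial ι ℤ) (EE ι) (X i)))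
    rw [hψ, IsFractionRing.lift_algebraMap]
    congr 1
    show _ = algebraMap ℤ_[p] ℚ_[p] (aeval θ (X i))
    rw [MvPolynomial.aeval_X]
    rfl
  · rw [← map_aeval' τ θ c₁]
    exact hu1.map τ
  · rw [← map_aeval' τ θ c₂, hspec, map_mul, map_pow, map_natCast]
    intro hdvd
    have hp0 : (p : A) ≠ 0 := by
      intro h
      rw [h] at hπD
      exact hπD (dvd_zero _)
    obtain ⟨e, u, hu⟩ := IsDiscreteValuationRing.eq_unit_mul_pow_irreducible hp0 hπ
    have he : e ≤ D := by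
      by_contra hc
      apply hπD
      rw [hu]
      exact Dvd.dvd.mul_left (pow_dvd_pow π (by omega)) _
    have hτu : IsUnit (τ ((PadicInt.unitCoeff hne2 : ℤ_[p]ˣ) : ℤ_[p])) :=
      (Units.isUnit _).map τ
    rw [hu, mul_pow, ← pow_mul] at hdvd
    have h1 : π ^ (D * m + 1) ∣ π ^ (e * m) := by
      have h2 : IsUnit (τ ((PadicInt.unitCoeff hne2 : ℤ_[p]ˣ) : ℤ_[p]) * (u : A) ^ m) :=
        hτu.mul (u.isUnit.pow m)
      rw [← mul_assoc] at hdvd
      exact (h2.dvd_mul_left).1 hdvd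
    have h3 := (pow_dvd_pow_iff hπ.ne_zero hπ.not_isUnit).1 h1
    have h4 : e * m ≤ D * m := Nat.mul_le_mul_right m he
    omega

end Pool.Agent.W135.UB
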